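import Pool.Agent.Helper801.GQC

namespace Pool.Agent.Results.MP_6ecf75_co.TSquared

open Pool.Agent.Helper801.GQA

/-- `u` is a center of symmetry: some group `S` of symmetries about `u` acts transitively on
`{v,w}^⊥ \ {u}` for every pair of noncollinear points `v, w` collinear with `u`. -/
def IsCenterOfSymmetry {P L : Type*} (I : P → L → Prop) (u : P) : Prop :=
  ∃ S : Subgroup (Equiv.Perm P × Equiv.Perm L), (∀ σ ∈ S, IsSymmetry I u σ) ∧
    ∀ v w : P, Coll I v u → Coll I w u → ¬ Coll I v w →
      ∀ a b : P, a ≠ u → Coll I a v → Coll I a w → b ≠ u → Coll I b v → Coll I b w →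
        ∃ σ ∈ S, σ.1 a = b

/-- `(I, x, G)` is a skew translation generalized quadrangle of order `(s,t)`: `I` is a generalized
quadrangle of order `(s,t)`, `G` is an elation group about `x`, the point `x` is a center of
symmetry and all symmetries about `x` belong to `G`. -/
structure IsSTGQ {P L : Type*} (I : P → L → Prop) (s t : ℕ) (x : P)
    (G : Subgroup (Equiv.Perm P × Equiv.Perm L)) : Prop where
  gq : IsGQ I s t
  elation : IsElationGroup I x G
  center : IsCenterOfSymmetry I x
  symm_mem : ∀ σ, IsSymmetry I x σ → σ ∈ G

/-- Every finite thick skew translation generalized quadrangle of order `(t^2,t)` is central: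
every symmetry about the elation point commutes with every element of the elation group. -/
theorem result {P L : Type*} [Finite P] [Finite L] (I : P → L → Prop) (s t : ℕ) (hs : 1 < s)
    (ht : 1 < t) (hst : s = t ^ 2) (x : P) (G : Subgroup (Equiv.Perm P × Equiv.Perm L))
    (h : IsSTGQ I s t x G) (σ : Equiv.Perm P × Equiv.Perm L) (hσ : IsSymmetry I x σ)
    (g : Equiv.Perm P × Equiv.Perm L) (hg : g ∈ G) : σ * g = g * σ := by
  classical
  haveI := Fintype.ofFinite P
  haveI := Fintype.ofFinite L
  exact central h.gq hs ht hst h.elation hσ (h.symm_mem σ hσ) hg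

end Pool.Agent.Results.MP_6ecf75_co.TSquared
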